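import Pool.Agent.H59.L.S8.Y506.RG.Stm
import Pool.Agent.H59.L.S8.Y487.FF.Th
import Pool.Agent.H59.L.S8.Y362.FF.Det
import Pool.Agent.H59.L.S8.Y67.FF.Dec

/-!
# The thickening inequality for general factors (job RG-THR)
-/

set_option autoImplicit false

namespace Pool.Agent.Y487.RG

open MeasureTheory Set Filter Topology
open scoped ENNReal InnerProductSpace
open Pool.Agent.W695.KH (Eu)
open Pool.Agent.Y506.FF (Pair mat pw prj)
open Pool.Agent.Y506.RG
open Pool.Agent.Y487.FF (expand inner_self_coord prj_add coord_sq coord_abs sum_pw pw_nonneg co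
  co_meas)

theorem tail_pos {f : ℝ → ℝ} (h : ND f) (s : Set ℝ) (hs : 0 < volume s) : 0 < ∫ t in s, f t := by
  rw [setIntegral_pos_iff_support_of_nonneg_ae (ae_of_all _ fun t => (h.pos t).le)
    h.int0.integrableOn]
  have h1 : Function.support f = Set.univ := by
    ext t
    simp [(h.pos t).ne']
  rw [h1, Set.univ_inter]
  exact hs

theorem kf_pos {f : ℝ → ℝ} (h : ND f) (t : ℝ) : 0 < kf f t := by
  unfold kf
  refine div_pos (lt_min (tail_pos h _ ?_) (tail_pos h _ ?_)) (h.pos t)
  · rw [Real.volume_Iic]; exact ENNReal.zero_lt_top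
  · rw [Real.volume_Ioi]; exact ENNReal.zero_lt_top

theorem kf_meas {f : ℝ → ℝ} (h : ND f) : Measurable (kf f) := by
  unfold kf
  refine Measurable.div (Measurable.min ?_ ?_) h.cont.measurable
  · refine Monotone.measurable fun a b hab => ?_
    exact setIntegral_mono_set h.int0.integrableOn (ae_of_all _ fun t => (h.pos t).le)
      (Iic_subset_Iic.2 hab).eventuallyLE
  · refine Antitone.measurable fun a b hab => ?_
    exact setIntegral_mono_set h.int0.integrableOn (ae_of_all _ fun t => (h.pos t).le)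
      (Ioi_subset_Ioi hab).eventuallyLE

section

variable {ι : Type} [Fintype ι] {n d : ℕ}

theorem rr_eq {f : ι → ℝ → ℝ} (hf : ∀ i, ND (f i)) (s : Eu ι) :
    rr f s = ENNReal.ofReal (∏ i, f i (s i)) := by
  unfold rr
  rw [ENNReal.ofReal_prod_of_nonneg fun i _ => ((hf i).pos _).le]

/-- The elementary inequality. -/
theorem key {L : Eu (Fin n) →ₗᵢ[ℝ] Eu ι} {M : Eu (Fin d) →ₗᵢ[ℝ] Eu ι} (hP : Pair L M)
    {l C lam : ℝ} (hC : 1 ≤ C) (hl1 : lam < l) (hl2 : C * lam ^ 2 ≤ 1)
    (hl3 : C ^ 2 * lam ^ 2 ≤ 1)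
    {f : ι → ℝ → ℝ} (hf : ∀ i, ND (f i)) {T p k : ι → ℝ → ℝ → ℝ}
    (hT : ∀ i, TM (f i) l C (T i) (p i) (k i)) (x : Eu (Fin n)) (z : Eu (Fin d))
    (hz : ‖z‖ < lam) :
    (∀ i, (T i (L x i) (M z i) - L x i) ^ 2 ≤ pw M i * (1 + |T i (L x i) (M z i)|) ^ 2) ∧
    (∀ i, 0 < p i (L x i) (M z i)) ∧ (∀ i, 0 < k i (L x i) (M z i)) ∧
    (C ^ d)⁻¹ * Real.exp (-Yr f L M x) * ∏ i, f i (L x i) ≤
      ((∏ i, p i (L x i) (M z i)) * ∏ i, k i (L x i) (M z i) ^ (pw M i)) *
        ∏ i, f i (T i (L x i) (M z i)) := by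
  have hC0 : 0 < C := by linarith
  have habs : ∀ i, |M z i| < l := fun i => ((coord_abs M z i).trans_lt hz).trans hl1
  have hsq : ∀ i, (M z i) ^ 2 ≤ lam ^ 2 * pw M i := by
    intro i
    refine (coord_sq M z i).trans ?_
    have h1 : ‖z‖ ^ 2 ≤ lam ^ 2 := pow_le_pow_left₀ (norm_nonneg z) hz.le 2
    exact mul_le_mul_of_nonneg_right h1 (pw_nonneg M i)
  have hp : ∀ i, 0 < p i (L x i) (M z i) := fun i => (hT i).ppos _ _ (habs i)
  have hk : ∀ i, 0 < k i (L x i) (M z i) := fun i => (hT i).kpos _ _ (habs i)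
  refine ⟨fun i => ?_, hp, hk, ?_⟩
  · have h1 := (hT i).disp' (L x i) (M z i) (habs i)
    have h2 : (T i (L x i) (M z i) - L x i) ^ 2 ≤
        (C * |M z i| * (1 + |T i (L x i) (M z i)|)) ^ 2 := by
      rw [← sq_abs (T i (L x i) (M z i) - L x i)]
      exact pow_le_pow_left₀ (abs_nonneg _) h1 2
    refine h2.trans ?_
    rw [mul_pow, mul_pow, sq_abs]
    refine mul_le_mul_of_nonneg_right ?_ (sq_nonneg _)
    have h3 := mul_le_mul_of_nonneg_left (hsq i) (sq_nonneg C)
    have h4 := mul_le_mul_of_nonneg_right hl3 (pw_nonneg M i)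
    nlinarith
  · -- densities
    have hA : (∏ i, f i (L x i)) * Real.exp (-∑ i, pw M i * (1 + |L x i|)) ≤
        (∏ i, f i (T i (L x i) (M z i))) * ∏ i, p i (L x i) (M z i) := by
      have h1 : (∏ i, f i (L x i)) * Real.exp (-∑ i, M z i * T i (L x i) (M z i)) ≤
          (∏ i, f i (T i (L x i) (M z i))) * ∏ i, p i (L x i) (M z i) := by
        rw [← Finset.sum_neg_distrib, Real.exp_sum, ← Finset.prod_mul_distrib,
          ← Finset.prod_mul_distrib]
        refine Finset.prod_le_prod (fun i _ => ?_) fun i _ => (hT i).dens _ _ (habs i)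
        exact mul_nonneg ((hf i).pos _).le (Real.exp_pos _).le
      refine le_trans ?_ h1
      refine mul_le_mul_of_nonneg_left ?_ (Finset.prod_nonneg fun i _ => ((hf i).pos _).le)
      apply Real.exp_le_exp.2
      rw [neg_le_neg_iff]
      have h2 : ∑ i, M z i * L x i = 0 := by
        have := hP.orth x z
        rw [PiLp.inner_apply] at this
        rw [← this]
        apply Finset.sum_congr rfl
        intro i _
        simp
      have h3 : ∑ i, M z i * T i (L x i) (M z i) =
          ∑ i, M z i * (T i (L x i) (M z i) - L x i) := by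
        have h4 : ∑ i, M z i * (T i (L x i) (M z i) - L x i) =
            ∑ i, M z i * T i (L x i) (M z i) - ∑ i, M z i * L x i := by
          rw [← Finset.sum_sub_distrib]
          exact Finset.sum_congr rfl fun i _ => by ring
        rw [h4, h2, sub_zero]
      rw [h3]
      refine Finset.sum_le_sum fun i _ => ?_
      have h5 := (hT i).disp (L x i) (M z i) (habs i)
      calc M z i * (T i (L x i) (M z i) - L x i)
          ≤ |M z i| * |T i (L x i) (M z i) - L x i| := by
            rw [← abs_mul]; exact le_abs_self _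
        _ ≤ |M z i| * (C * |M z i| * (1 + |L x i|)) :=
            mul_le_mul_of_nonneg_left h5 (abs_nonneg _)
        _ = (C * (M z i) ^ 2) * (1 + |L x i|) := by
            rw [← sq_abs (M z i)]; ring
        _ ≤ pw M i * (1 + |L x i|) := by
            refine mul_le_mul_of_nonneg_right ?_ (by positivity)
            have h6 := mul_le_mul_of_nonneg_left (hsq i) hC0.le
            have h7 := mul_le_mul_of_nonneg_right hl2 (pw_nonneg M i)
            nlinarith
    have hB : (C ^ d)⁻¹ * Real.exp (-∑ i, pw M i * max 0 (-Real.log (kf (f i) (L x i)))) ≤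
        ∏ i, k i (L x i) (M z i) ^ (pw M i) := by
      have h1 : (C ^ d)⁻¹ = ∏ i, (C⁻¹) ^ (pw M i) := by
        rw [← Real.rpow_sum_of_pos (by positivity), sum_pw, Real.rpow_natCast, inv_pow]
      rw [h1, ← Finset.sum_neg_distrib, Real.exp_sum, ← Finset.prod_mul_distrib]
      apply Finset.prod_le_prod
      · intro i _
        positivity
      · intro i _
        have hkf := kf_pos (hf i) (L x i)
        calc (C⁻¹) ^ (pw M i) * Real.exp (-(pw M i * max 0 (-Real.log (kf (f i) (L x i)))))
            ≤ (C⁻¹) ^ (pw M i) * (kf (f i) (L x i)) ^ (pw M i) := by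
              apply mul_le_mul_of_nonneg_left _ (by positivity)
              rw [Real.rpow_def_of_pos hkf]
              apply Real.exp_le_exp.2
              have h2 := le_max_right 0 (-Real.log (kf (f i) (L x i)))
              nlinarith [pw_nonneg M i]
          _ = (C⁻¹ * kf (f i) (L x i)) ^ (pw M i) := by
              rw [Real.mul_rpow (by positivity) hkf.le]
          _ ≤ k i (L x i) (M z i) ^ (pw M i) := by
              apply Real.rpow_le_rpow (by positivity) _ (pw_nonneg M i)
              rw [inv_mul_le_iff₀ hC0]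
              exact (hT i).klow _ _ (habs i)
    have hY : Yr f L M x = ∑ i, pw M i * (1 + |L x i|) +
        ∑ i, pw M i * max 0 (-Real.log (kf (f i) (L x i))) := by
      unfold Yr
      rw [← Finset.sum_add_distrib]
      exact Finset.sum_congr rfl fun i _ => by ring
    calc (C ^ d)⁻¹ * Real.exp (-Yr f L M x) * ∏ i, f i (L x i)
        = ((∏ i, f i (L x i)) * Real.exp (-∑ i, pw M i * (1 + |L x i|))) * ((C ^ d)⁻¹ *
          Real.exp (-∑ i, pw M i * max 0 (-Real.log (kf (f i) (L x i))))) := by
          rw [hY, neg_add, Real.exp_add]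
          ring
      _ ≤ ((∏ i, f i (T i (L x i) (M z i))) * ∏ i, p i (L x i) (M z i)) *
          ∏ i, k i (L x i) (M z i) ^ (pw M i) := by
          apply mul_le_mul hA hB
          · positivity
          · exact mul_nonneg (Finset.prod_nonneg fun i _ => ((hf i).pos _).le)
              (Finset.prod_nonneg fun i _ => (hp i).le)
      _ = _ := by ring

end

/-- the thickening inequality for general factors -/
theorem thr (h2 : S_JACR) : S_THR := by
  classical
  intro d l C hl hC
  have hC0 : 0 < C := by linarith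
  obtain ⟨lam, hlam⟩ : ∃ lam : ℝ, lam = min l 1 / (2 * C) := ⟨_, rfl⟩
  have hm0 : 0 < min l 1 := lt_min hl one_pos
  have hlam0 : 0 < lam := by rw [hlam]; positivity
  have hClam : C * lam ≤ 1 / 2 := by
    rw [hlam]
    have h1 : C * (min l 1 / (2 * C)) = min l 1 / 2 := by field_simp
    rw [h1]
    have := min_le_right l 1
    linarith
  have hl1 : lam < l := by
    rw [hlam, div_lt_iff₀ (by positivity)]
    have h1 := min_le_left l 1
    nlinarith
  have hlam1 : lam ≤ 1 / 2 := by nlinarith
  have hl3 : C ^ 2 * lam ^ 2 ≤ 1 := by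
    have h1 : C ^ 2 * lam ^ 2 = (C * lam) ^ 2 := by ring
    rw [h1]
    have h2 : 0 ≤ C * lam := by positivity
    nlinarith
  have hl2 : C * lam ^ 2 ≤ 1 := by
    have h1 : C * lam ^ 2 = (C * lam) * lam := by ring
    rw [h1]
    nlinarith
  have h1 := Pool.Agent.Y362.FF.detm
  have h3 := Pool.Agent.Y67.FF.dec
  refine ⟨(C ^ d)⁻¹ * (volume (Metric.ball (0 : Eu (Fin d)) lam)).toReal, 1, ?_, le_rfl, ?_⟩
  · apply mul_pos (by positivity)
    exact ENNReal.toReal_pos (Metric.measure_ball_pos _ _ hlam0).ne' measure_ball_lt_top.ne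
  intro ι _ n f hf hTM L M hP B hBm S hSm hS
  choose T p k hT using hTM
  obtain ⟨hex, hint⟩ := h3 ι n d L M hP
  have coL : ∀ x z, co L (L x + M z) = x := by
    intro x z
    unfold co
    ext j
    simp only
    rw [inner_add_right, inner_self_coord, hP.orth, add_zero]
  have coM : ∀ x z, co M (L x + M z) = z := by
    intro x z
    unfold co
    ext j
    simp only
    rw [inner_add_right, inner_self_coord, real_inner_comm, hP.orth, zero_add]
  obtain ⟨W, hW⟩ : ∃ W : Set (Eu ι), W = co L ⁻¹' B ∩ co M ⁻¹' Metric.ball 0 lam := ⟨_, rfl⟩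
  have hWm : MeasurableSet W := by
    rw [hW]
    exact (co_meas L hBm).inter (co_meas M measurableSet_ball)
  have hWi : ∀ x z, L x + M z ∈ W ↔ x ∈ B ∧ ‖z‖ < lam := by
    intro x z
    rw [hW, Set.mem_inter_iff, Set.mem_preimage, Set.mem_preimage, coL, coM, mem_ball_zero_iff]
  have hsub : ∀ x z, L x + M z - prj M (L x + M z) = L x := by
    intro x z
    rw [prj_add hP, add_sub_cancel_right]
  have hPhi : ∀ x z i, PhT T M (L x + M z) i = T i (L x i) (M z i) := by
    intro x z i
    unfold PhT
    rw [hsub, prj_add hP]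
  have hWd : ∀ w ∈ W, ∀ i, |prj M w i| < l := by
    intro w hw i
    obtain ⟨x, z, rfl⟩ := hex w
    rw [hWi] at hw
    rw [prj_add hP]
    exact ((coord_abs M z i).trans_lt hw.2).trans hl1
  have hPS : PhT T M '' W ⊆ S := by
    rintro s ⟨w, hw, rfl⟩
    obtain ⟨x, z, rfl⟩ := hex w
    rw [hWi] at hw
    obtain ⟨k2, -, -, -⟩ := key hP hC hl1 hl2 hl3 hf hT x z hw.2
    apply hS
    refine ⟨x, hw.1, ?_⟩
    rw [EuclideanSpace.norm_sq_eq, one_mul]
    apply Finset.sum_le_sum
    intro i _
    rw [Real.norm_eq_abs, sq_abs, PiLp.sub_apply, hPhi]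
    exact k2 i
  have hJ := h2 ι d l C f T p k hT M W hWm hWd (rr f)
  have hcL : ∀ i, Measurable fun x : Eu (Fin n) => L x i := by
    intro i
    have : Continuous fun x : Eu (Fin n) => L x i :=
      (EuclideanSpace.proj i : EuclideanSpace ℝ ι →L[ℝ] ℝ).continuous.comp L.continuous
    exact this.measurable
  have hYm : Measurable (Yr f L M) := by
    unfold Yr
    apply Finset.measurable_sum
    intro i _
    apply Measurable.const_mul
    apply Measurable.add
    · exact (continuous_abs.measurable.comp (hcL i)).const_add 1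
    · exact measurable_const.max (Real.measurable_log.comp ((kf_meas (hf i)).comp (hcL i))).neg
  have hrm : Measurable fun x : Eu (Fin n) => rr f (L x) := by
    unfold rr
    apply Finset.measurable_prod
    intro i _
    exact ((hf i).cont.measurable.comp (hcL i)).ennreal_ofReal
  obtain ⟨H0, hH0⟩ : ∃ H0 : Eu (Fin n) → ℝ≥0∞, H0 = fun x =>
      ENNReal.ofReal (Real.exp (-Yr f L M x)) * rr f (L x) := ⟨_, rfl⟩
  have hH0m : Measurable H0 := by
    rw [hH0]
    exact (Real.measurable_exp.comp hYm.neg).ennreal_ofReal.mul hrm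
  obtain ⟨F0, hF0⟩ : ∃ F0 : Eu ι → ℝ≥0∞, F0 = fun w =>
      ENNReal.ofReal ((C ^ d)⁻¹) * H0 (co L w) := ⟨_, rfl⟩
  have hF0m : Measurable F0 := by
    rw [hF0]
    exact (hH0m.comp (co_meas L)).const_mul _
  have hge : ∫⁻ w in W, F0 w ≤ ∫⁻ s in S, rr f s := by
    refine le_trans ?_ (lintegral_mono_set hPS)
    rw [← hJ]
    apply setLIntegral_mono' hWm
    intro w hw
    obtain ⟨x, z, rfl⟩ := hex w
    rw [hWi] at hw
    obtain ⟨-, k1, k3, k4⟩ := key hP hC hl1 hl2 hl3 hf hT x z hw.2
    have hA : (mat M).transpose * mat M = 1 := by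
      ext j k
      rw [Matrix.mul_apply]
      have : ⟪M (EuclideanSpace.single j 1), M (EuclideanSpace.single k 1)⟫_ℝ =
          ∑ i, (mat M).transpose j i * mat M i k := by
        rw [PiLp.inner_apply]
        apply Finset.sum_congr rfl
        intro i _
        simp [mat, Matrix.transpose_apply, mul_comm]
      rw [← this, inner_self_coord]
      simp [Matrix.one_apply, PiLp.single_apply]
    have hdet := h1 ι d (mat M) hA (fun i => k i (L x i) (M z i)) k3
    have hdet' : ∏ i, k i (L x i) (M z i) ^ (pw M i) ≤ ((mat M).transpose *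
        Matrix.diagonal (fun i => k i (L x i) (M z i)) * mat M).det := hdet
    have hprod : 0 < ∏ i, p i (L x i) (M z i) := Finset.prod_pos fun i _ => k1 i
    have hprod2 : 0 < ∏ i, k i (L x i) (M z i) ^ (pw M i) :=
      Finset.prod_pos fun i _ => Real.rpow_pos_of_pos (k3 i) _
    have hprod3 : 0 < ∏ i, f i (T i (L x i) (M z i)) := Finset.prod_pos fun i _ => (hf i).pos _
    have hr : rr f (PhT T M (L x + M z)) = ENNReal.ofReal (∏ i, f i (T i (L x i) (M z i))) := by
      rw [rr_eq hf]
      simp only [hPhi]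
    rw [hr, hF0, hH0]
    simp only [coL, prj_add hP, add_sub_cancel_right]
    rw [rr_eq hf, ← ENNReal.ofReal_mul (by positivity), ← ENNReal.ofReal_mul (by positivity),
      ← ENNReal.ofReal_mul (abs_nonneg _)]
    apply ENNReal.ofReal_le_ofReal
    rw [← mul_assoc]
    refine k4.trans ?_
    apply mul_le_mul_of_nonneg_right _ hprod3.le
    rw [abs_of_pos (mul_pos hprod (lt_of_lt_of_le hprod2 hdet'))]
    exact mul_le_mul_of_nonneg_left hdet' hprod.le
  refine le_trans (le_of_eq ?_) hge
  rw [← lintegral_indicator hWm, hint _ (hF0m.indicator hWm)]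
  have e1 : ∀ z : Eu (Fin d), ∫⁻ x, W.indicator F0 (L x + M z) =
      (Metric.ball (0 : Eu (Fin d)) lam).indicator (fun _ =>
        ENNReal.ofReal ((C ^ d)⁻¹) * ∫⁻ x in B, H0 x) z := by
    intro z
    by_cases hz : z ∈ Metric.ball (0 : Eu (Fin d)) lam
    · rw [Set.indicator_of_mem hz, ← lintegral_const_mul _ hH0m, ← lintegral_indicator hBm]
      apply lintegral_congr
      intro x
      by_cases hx : x ∈ B
      · rw [Set.indicator_of_mem hx, Set.indicator_of_mem ((hWi x z).2 ⟨hx, by
          simpa using hz⟩), hF0]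
        simp only [coL]
      · rw [Set.indicator_of_notMem hx, Set.indicator_of_notMem]
        intro h
        exact hx ((hWi x z).1 h).1
    · rw [Set.indicator_of_notMem hz]
      apply lintegral_eq_zero_of_ae_eq_zero
      apply ae_of_all
      intro x
      show W.indicator F0 (L x + M z) = 0
      apply Set.indicator_of_notMem
      intro h
      exact hz (by simpa using ((hWi x z).1 h).2)
  rw [lintegral_congr e1, lintegral_indicator measurableSet_ball, setLIntegral_const]
  have e2 : ENNReal.ofReal ((C ^ d)⁻¹ * (volume (Metric.ball (0 : Eu (Fin d))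
      lam)).toReal) = ENNReal.ofReal ((C ^ d)⁻¹) * volume (Metric.ball (0 : Eu (Fin d)) lam) := by
    rw [ENNReal.ofReal_mul (by positivity), ENNReal.ofReal_toReal measure_ball_lt_top.ne]
  rw [e2, hH0]
  ring

end Pool.Agent.Y487.RG
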